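import Mathlib.LinearAlgebra.Matrix.Rank
import Mathlib.Data.Matrix.ColumnRowPartitioned
import Mathlib.Data.ZMod.Basic
import Mathlib.Algebra.Field.ZMod
import Mathlib.Tactic

/-!
# Tournament minimum rank of dijoins with the directed triangle (MP_7ecff9_co)
-/

namespace Pool.Agent.Results.MP_7ecff9_co.DijoinTriangle

open Matrix Module

/-- `D` is a tournament. -/
def IsTournament {V : Type} (D : V → V → Prop) : Prop :=
  (∀ u, ¬ D u u) ∧ ∀ u v, u ≠ v → (D u v ↔ ¬ D v u)

/-- `M` is a matrix over `𝔽₂` which coincides off the diagonal with the adjacency matrix of the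
graph `G_{D,T}` for some transitive tournament `T`: here `T` is given by an injective function
`f : V → ℕ` (`u → v` in `T` iff `f u < f v`), and `u v` is an edge of `G_{D,T}` iff the pair is
oriented differently in `D` and `T`. -/
def Admissible {V : Type} (D : V → V → Prop) (M : Matrix V V (ZMod 2)) : Prop :=
  ∃ f : V → ℕ, Function.Injective f ∧
    ∀ u v, u ≠ v → (M u v = 1 ↔ ((D u v ∧ f v < f u) ∨ (D v u ∧ f u < f v)))

/-- The tournament minimum rank. -/
noncomputable def tmr {V : Type} [Fintype V] (D : V → V → Prop) : ℕ :=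
  sInf {r | ∃ M : Matrix V V (ZMod 2), Admissible D M ∧ M.rank = r}

/-- The dijoin `D₁ → D₂`. -/
def dijoin {V W : Type} (D₁ : V → V → Prop) (D₂ : W → W → Prop) : V ⊕ W → V ⊕ W → Prop
  | .inl u, .inl v => D₁ u v
  | .inr u, .inr v => D₂ u v
  | .inl _, .inr _ => True
  | .inr _, .inl _ => False

/-- The directed triangle `0 → 1 → 2 → 0`. -/
def C3 : Fin 3 → Fin 3 → Prop := fun i j => j = i + 1

theorem z2 (a : ZMod 2) : a = 0 ∨ a = 1 := by
  revert a; decide

theorem z2_add_self (a : ZMod 2) : a + a = 0 := by
  revert a; decide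

theorem z2_ne_one (a : ZMod 2) : a ≠ 1 ↔ a = 0 := by
  revert a; decide

section

set_option linter.unusedSectionVars false

variable {V W : Type} [Fintype V] [Fintype W]

theorem exists_admissible {D : V → V → Prop} : ∃ M : Matrix V V (ZMod 2), Admissible D M := by
  classical
  let e := Fintype.equivFin V
  refine ⟨fun u v => if ((D u v ∧ (e v).val < (e u).val) ∨ (D v u ∧ (e u).val < (e v).val))
    then 1 else 0, fun v => (e v).val, fun a b h => e.injective (Fin.ext h), fun u v _ => ?_⟩
  show (if ((D u v ∧ (e v).val < (e u).val) ∨ (D v u ∧ (e u).val < (e v).val))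
    then (1 : ZMod 2) else 0) = 1 ↔ ((D u v ∧ (e v).val < (e u).val) ∨
      (D v u ∧ (e u).val < (e v).val))
  split_ifs with h
  · exact ⟨fun _ => h, fun _ => rfl⟩
  · exact ⟨fun h' => absurd h' (by decide), fun h' => absurd h' h⟩

theorem exists_min (D : V → V → Prop) : ∃ M : Matrix V V (ZMod 2), Admissible D M ∧
    M.rank = tmr D := by
  obtain ⟨M, hM⟩ := exists_admissible (D := D)
  exact Nat.sInf_mem (⟨M.rank, M, hM, rfl⟩ :
    {r | ∃ M : Matrix V V (ZMod 2), Admissible D M ∧ M.rank = r}.Nonempty)

theorem tmr_le {D : V → V → Prop} {M : Matrix V V (ZMod 2)} (h : Admissible D M) :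
    tmr D ≤ M.rank := Nat.sInf_le ⟨M, h, rfl⟩

theorem Admissible.symm {D : V → V → Prop} {M : Matrix V V (ZMod 2)} (h : Admissible D M)
    (u v : V) : M u v = M v u := by
  by_cases huv : u = v
  · rw [huv]
  · obtain ⟨f, _, hf⟩ := h
    have h1 := hf u v huv
    have h2 := hf v u (Ne.symm huv)
    rcases z2 (M u v) with h3 | h3 <;> rcases z2 (M v u) with h4 | h4
    · rw [h3, h4]
    · exfalso
      have := h1.2 (Or.symm (h2.1 h4))
      rw [h3] at this
      exact absurd this (by decide)
    · exfalso
      have := h2.2 (Or.symm (h1.1 h3))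
      rw [h4] at this
      exact absurd this (by decide)
    · rw [h3, h4]

/-- Rank drops when the kernel grows strictly. -/
theorem rank_lt {A A' : Matrix V V (ZMod 2)} (h : ∀ k, A *ᵥ k = 0 → A' *ᵥ k = 0) {y : V → ZMod 2}
    (hy : A' *ᵥ y = 0) (hy' : A *ᵥ y ≠ 0) : A'.rank < A.rank := by
  have h1 := A.mulVecLin.finrank_range_add_finrank_ker
  have h2 := A'.mulVecLin.finrank_range_add_finrank_ker
  have h3 : finrank (ZMod 2) (LinearMap.ker A.mulVecLin) <
      finrank (ZMod 2) (LinearMap.ker A'.mulVecLin) := by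
    apply Submodule.finrank_lt_finrank_of_lt
    rw [SetLike.lt_iff_le_and_exists]
    refine ⟨fun k hk => ?_, y, ?_, ?_⟩
    · rw [LinearMap.mem_ker, mulVecLin_apply] at hk ⊢
      exact h k hk
    · rw [LinearMap.mem_ker, mulVecLin_apply]
      exact hy
    · rw [LinearMap.mem_ker, mulVecLin_apply]
      exact hy'
  unfold Matrix.rank
  omega

theorem vecMulVec_mulVec' (u v k : V → ZMod 2) : (vecMulVec u v) *ᵥ k = (v ⬝ᵥ k) • u := by
  rw [Matrix.vecMulVec_mulVec]
  ext i
  simp [mul_comm]

theorem xor_lemma (p q r : Prop) {a t : ZMod 2} (ha : a = 1 ↔ ((p ∧ ¬ q) ∨ (¬ p ∧ q)))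
    (ht : t = 1 ↔ ¬ (q ↔ r)) : a + t = 1 ↔ ((p ∧ ¬ r) ∨ (¬ p ∧ r)) := by
  have e0 : ((0 : ZMod 2) = 1) ↔ False := by decide
  have e00 : ((0 : ZMod 2) + 0 = 1) ↔ False := by decide
  have e01 : ((0 : ZMod 2) + 1 = 1) ↔ True := by decide
  have e10 : ((1 : ZMod 2) + 0 = 1) ↔ True := by decide
  have e11 : ((1 : ZMod 2) + 1 = 1) ↔ False := by decide
  rcases z2 a with rfl | rfl <;> rcases z2 t with rfl | rfl <;>
    simp only [e0, e00, e01, e10, e11] at ha ht ⊢ <;>
    by_cases hp : p <;> by_cases hq : q <;> by_cases hr : r <;>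
    simp [hp, hq, hr] at ha ht ⊢

/-- Changing the linear order and the matrix accordingly. -/
theorem flip {D : V → V → Prop} (hD : IsTournament D) {g g' : V → ℕ}
    (hg : Function.Injective g) (hg' : Function.Injective g') {u v : V} (huv : u ≠ v)
    {a t : ZMod 2} (ha : a = 1 ↔ ((D u v ∧ g v < g u) ∨ (D v u ∧ g u < g v)))
    (ht : t = 1 ↔ ¬ (g u < g v ↔ g' u < g' v)) :
    a + t = 1 ↔ ((D u v ∧ g' v < g' u) ∨ (D v u ∧ g' u < g' v)) := by
  have h1 : g u ≠ g v := fun h => huv (hg h)
  have h2 : g' u ≠ g' v := fun h => huv (hg' h)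
  have h3 := hD.2 u v huv
  have h4 : g v < g u ↔ ¬ g u < g v := by omega
  have h5 : g' v < g' u ↔ ¬ g' u < g' v := by omega
  rw [h3, h4] at ha
  rw [h3, h5]
  have ha' : a = 1 ↔ ((¬ D v u ∧ ¬ g u < g v) ∨ (¬ ¬ D v u ∧ g u < g v)) := by
    rw [not_not]
    exact ha
  have := xor_lemma (¬ D v u) (g u < g v) (g' u < g' v) ha' ht
  rwa [not_not] at this

theorem z2_add_or {a b : ZMod 2} (h : ¬ (a = 1 ∧ b = 1)) : a + b = 1 ↔ a = 1 ∨ b = 1 := by
  revert a b
  decide

theorem ind_mul (p q : Prop) [Decidable p] [Decidable q] {a b : ZMod 2} (ha : a = 1 ↔ p)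
    (hb : b = 1 ↔ q) : a * b = 1 ↔ p ∧ q := by
  rcases z2 a with rfl | rfl <;> rcases z2 b with rfl | rfl <;> simp_all

/-- If the dijoin with `H` does not have larger minimum rank, then `H` is transitive. -/
theorem key {D : V → V → Prop} {H : W → W → Prop} (hD : IsTournament D)
    (hle : tmr (dijoin D H) ≤ tmr D) : ∃ f : W → ℕ, ∀ c c', c ≠ c' → H c c' → f c < f c' := by
  classical
  obtain ⟨M, hM, hr⟩ := exists_min (dijoin D H)
  have hsym := hM.symm
  obtain ⟨f, hfi, hf⟩ := hM
  let A : Matrix V V (ZMod 2) := M.submatrix Sum.inl Sum.inl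
  have hA : Admissible D A := by
    refine ⟨fun v => f (.inl v), fun a b h => Sum.inl_injective (hfi h), fun u v huv => ?_⟩
    exact hf (.inl u) (.inl v) (fun h => huv (Sum.inl_injective h))
  have hAr : A.rank = tmr D := by
    have h1 := tmr_le hA
    have h2 : A.rank ≤ M.rank := rank_submatrix_le M _ _
    omega
  have hAsym : ∀ u v, A u v = A v u := fun u v => hsym _ _
  have hAt : Aᵀ = A := by
    ext u v
    exact hAsym v u
  -- the columns of `D`
  let N : Matrix (V ⊕ W) V (ZMod 2) := M.submatrix id Sum.inl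
  have hrange : LinearMap.range N.mulVecLin = LinearMap.range M.mulVecLin := by
    apply Submodule.eq_of_le_of_finrank_le
    · rintro _ ⟨x, rfl⟩
      refine ⟨Sum.elim x 0, ?_⟩
      ext u
      simp [N, mulVec, dotProduct, Fintype.sum_sum_type]
    · have h1 : A.rank ≤ N.rank := rank_submatrix_le N Sum.inl id
      have h2 : M.rank ≤ A.rank := by omega
      exact h2.trans h1
  have hx : ∀ c : W, ∃ x : V → ZMod 2, ∀ u, ∑ v, M u (.inl v) * x v = M u (.inr c) := by
    intro c
    have : (M *ᵥ Pi.single (.inr c) 1) ∈ LinearMap.range N.mulVecLin := by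
      rw [hrange]
      exact ⟨_, rfl⟩
    obtain ⟨x, hx⟩ := this
    refine ⟨x, fun u => ?_⟩
    have := congrFun hx u
    rw [mulVec_single_one] at this
    exact this
  choose x hx using hx
  let F : W → V → ZMod 2 := fun c w => M (.inl w) (.inr c)
  have hAx : ∀ c, A *ᵥ (x c) = F c := by
    intro c
    ext w
    exact hx c (.inl w)
  have hC : ∀ c' c, F c' ⬝ᵥ x c = M (.inr c') (.inr c) := by
    intro c' c
    rw [← hx c (.inr c')]
    refine Finset.sum_congr rfl fun v _ => ?_
    show M (.inl v) (.inr c') * x c v = _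
    rw [hsym (.inl v) (.inr c')]
  have hF : ∀ c w, F c w = 1 ↔ f (.inr c) < f (.inl w) := by
    intro c w
    have h1 := hf (.inl w) (.inr c) (by simp)
    show M (.inl w) (.inr c) = 1 ↔ _
    rw [h1]
    simp [dijoin]
  have hmove : ∀ y k : V → ZMod 2, (A *ᵥ y) ⬝ᵥ k = y ⬝ᵥ (A *ᵥ k) := by
    intro y k
    rw [dotProduct_mulVec, ← mulVec_transpose, hAt]
  have hker : ∀ c k, A *ᵥ k = 0 → F c ⬝ᵥ k = 0 := by
    intro c k hk
    rw [← hAx c, hmove, hk, dotProduct_zero]
  obtain ⟨L, hL⟩ : ∃ L, ∀ u, f u < L := by
    refine ⟨(Finset.univ.sup f) + 1, fun u => ?_⟩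
    exact Nat.lt_succ_of_le (Finset.le_sup (Finset.mem_univ u))
  let g : V → ℕ := fun w => f (.inl w)
  have hg : Function.Injective g := fun a b h => Sum.inl_injective (hfi h)
  have hAf : ∀ u v, u ≠ v → (A u v = 1 ↔ ((D u v ∧ g v < g u) ∨ (D v u ∧ g u < g v))) :=
    fun u v huv => hf (.inl u) (.inl v) (fun h => huv (Sum.inl_injective h))
  -- step 1
  have hdiag : ∀ c, M (.inr c) (.inr c) = 0 := by
    intro c
    by_contra hne
    have h1 : F c ⬝ᵥ x c = 1 := by
      rw [hC]
      rcases z2 (M (.inr c) (.inr c)) with h | h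
      · exact absurd h hne
      · exact h
    let A' : Matrix V V (ZMod 2) := A + vecMulVec (F c) (F c)
    have hlt : A'.rank < A.rank := by
      apply rank_lt (y := x c)
      · intro k hk
        rw [add_mulVec, vecMulVec_mulVec', hk, hker c k hk]
        simp
      · rw [add_mulVec, vecMulVec_mulVec', hAx, h1, one_smul]
        ext w
        exact z2_add_self _
      · rw [hAx]
        intro h
        rw [h, zero_dotProduct] at h1
        exact absurd h1 (by decide)
    have hadm : Admissible D A' := by
      let g' : V → ℕ := fun w => if f (.inr c) < g w then 2 * L - g w else g w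
      have hg' : Function.Injective g' := by
        intro a b hab
        have ha := hL (.inl a)
        have hb := hL (.inl b)
        have hc := hL (.inr c)
        have : g a = g b := by
          have hab' : (if f (.inr c) < g a then 2 * L - g a else g a) =
            (if f (.inr c) < g b then 2 * L - g b else g b) := hab
          have ha' : g a < L := ha
          have hb' : g b < L := hb
          split_ifs at hab' <;> omega
        exact hg this
      refine ⟨g', hg', fun u v huv => ?_⟩
      have hu : g u < L := hL (.inl u)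
      have hv : g v < L := hL (.inl v)
      have hne' : g u ≠ g v := fun h => huv (hg h)
      apply flip hD hg hg' huv (hAf u v huv)
      have hprod := ind_mul _ _ (hF c u) (hF c v)
      show F c u * F c v = 1 ↔ _
      rw [hprod]
      show f (.inr c) < g u ∧ f (.inr c) < g v ↔ ¬ (g u < g v ↔
        (if f (.inr c) < g u then 2 * L - g u else g u) <
        (if f (.inr c) < g v then 2 * L - g v else g v))
      split_ifs <;> omega
    have := tmr_le hadm
    omega
  -- step 2
  have hoff : ∀ c c', f (.inr c) < f (.inr c') → M (.inr c) (.inr c') = 0 := by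
    intro c c' hcc
    by_contra hne
    have h1 : M (.inr c) (.inr c') = 1 := by
      rcases z2 (M (.inr c) (.inr c')) with h | h
      · exact absurd h hne
      · exact h
    have h1' : M (.inr c') (.inr c) = 1 := by rw [hsym]; exact h1
    let U : V → ZMod 2 := F c + F c'
    let y : V → ZMod 2 := x c + x c'
    have hAy : A *ᵥ y = U := by
      show A *ᵥ (x c + x c') = F c + F c'
      rw [mulVec_add, hAx, hAx]
    have hUy : U ⬝ᵥ y = 0 := by
      show (F c + F c') ⬝ᵥ (x c + x c') = 0
      rw [add_dotProduct, dotProduct_add, dotProduct_add, hC, hC, hC, hC, hdiag, hdiag, h1, h1']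
      decide
    have hFy : F c' ⬝ᵥ y = 1 := by
      show F c' ⬝ᵥ (x c + x c') = 1
      rw [dotProduct_add, hC, hC, hdiag, h1', add_zero]
    let A' : Matrix V V (ZMod 2) := A + (vecMulVec U (F c') + vecMulVec (F c') U)
    have hlt : A'.rank < A.rank := by
      apply rank_lt (y := y)
      · intro k hk
        have h2 : U ⬝ᵥ k = 0 := by rw [← hAy, hmove, hk, dotProduct_zero]
        rw [add_mulVec, add_mulVec, vecMulVec_mulVec', vecMulVec_mulVec', hk, hker c' k hk, h2]
        simp
      · rw [add_mulVec, add_mulVec, vecMulVec_mulVec', vecMulVec_mulVec', hAy, hUy, hFy, one_smul,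
          zero_smul, add_zero]
        ext w
        exact z2_add_self _
      · intro h
        have h3 := hmove (x c') y
        rw [hAx, h, dotProduct_zero, hFy] at h3
        exact absurd h3 (by decide)
    have hadm : Admissible D A' := by
      let g' : V → ℕ := fun w => if f (.inr c) < g w ∧ g w < f (.inr c') then g w + L else g w
      have hg' : Function.Injective g' := by
        intro a b hab
        have ha : g a < L := hL (.inl a)
        have hb : g b < L := hL (.inl b)
        have : g a = g b := by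
          have hab' : (if f (.inr c) < g a ∧ g a < f (.inr c') then g a + L else g a) =
            (if f (.inr c) < g b ∧ g b < f (.inr c') then g b + L else g b) := hab
          split_ifs at hab' <;> omega
        exact hg this
      refine ⟨g', hg', fun u v huv => ?_⟩
      have hu : g u < L := hL (.inl u)
      have hv : g v < L := hL (.inl v)
      have hne' : g u ≠ g v := fun h => huv (hg h)
      have hcu : f (.inr c') ≠ g u := fun h => by
        have := hfi h
        simp at this
      have hcv : f (.inr c') ≠ g v := fun h => by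
        have := hfi h
        simp at this
      have hU : ∀ w, g w ≠ f (.inr c') →
          (U w = 1 ↔ (f (.inr c) < g w ∧ g w < f (.inr c'))) := by
        intro w hw
        have e1 := hF c w
        have e2 := hF c' w
        show F c w + F c' w = 1 ↔ _
        by_cases q1 : f (.inr c) < g w
        · by_cases q2 : f (.inr c') < g w
          · rw [e1.2 q1, e2.2 q2]
            constructor
            · intro h
              exact absurd h (by decide)
            · intro h
              omega
          · rw [e1.2 q1, (z2_ne_one _).1 (fun h => q2 (e2.1 h)), add_zero]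
            constructor
            · intro _
              exact ⟨q1, by omega⟩
            · intro _
              rfl
        · have q2 : ¬ f (.inr c') < g w := by omega
          rw [(z2_ne_one _).1 (fun h => q1 (e1.1 h)), (z2_ne_one _).1 (fun h => q2 (e2.1 h)),
            add_zero]
          constructor
          · intro h
            exact absurd h (by decide)
          · intro h
            exact absurd h.1 q1
      apply flip hD hg hg' huv (hAf u v huv)
      have m1 := ind_mul _ _ (hU u hcu.symm) (hF c' v)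
      have m2 := ind_mul _ _ (hF c' u) (hU v hcv.symm)
      have hsum : U u * F c' v + F c' u * U v = 1 ↔
          ((f (.inr c) < g u ∧ g u < f (.inr c')) ∧ f (.inr c') < g v) ∨
          (f (.inr c') < g u ∧ (f (.inr c) < g v ∧ g v < f (.inr c'))) := by
        have m1' : U u * F c' v = 1 ↔ (f (.inr c) < g u ∧ g u < f (.inr c')) ∧
          f (.inr c') < g v := m1
        have m2' : F c' u * U v = 1 ↔ f (.inr c') < g u ∧
          (f (.inr c) < g v ∧ g v < f (.inr c')) := m2
        rw [← m1', ← m2']
        have hnot : ¬ (U u * F c' v = 1 ∧ F c' u * U v = 1) := by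
          rw [m1', m2']
          omega
        exact z2_add_or hnot
      show U u * F c' v + F c' u * U v = 1 ↔ _
      rw [hsum]
      show _ ↔ ¬ (g u < g v ↔
        (if f (.inr c) < g u ∧ g u < f (.inr c') then g u + L else g u) <
        (if f (.inr c) < g v ∧ g v < f (.inr c') then g v + L else g v))
      split_ifs <;> omega
    have := tmr_le hadm
    omega
  refine ⟨fun c => f (.inr c), fun c c' hne hHc => ?_⟩
  have hne' : f (.inr c) ≠ f (.inr c') := fun h => hne (Sum.inr_injective (hfi h))
  by_contra hcon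
  have hlt : f (.inr c') < f (.inr c) := by
    show f (.inr c') < f (.inr c)
    have : ¬ f (.inr c) < f (.inr c') := hcon
    omega
  have h1 := hoff c' c hlt
  have h2 := (hf (.inr c) (.inr c') (fun h => hne (Sum.inr_injective h))).2
    (Or.inl ⟨hHc, hlt⟩)
  rw [hsym, h1] at h2
  exact absurd h2 (by decide)

/-- Rank of a block diagonal matrix. -/
theorem rank_blocks [DecidableEq V] [DecidableEq W] (A : Matrix V V (ZMod 2))
    (K : Matrix W W (ZMod 2)) : (fromBlocks A 0 0 K).rank ≤ A.rank + K.rank := by
  have h1 : (fromBlocks A 0 0 K : Matrix (V ⊕ W) (V ⊕ W) (ZMod 2)) =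
      (fromRows (1 : Matrix V V (ZMod 2)) (0 : Matrix W V (ZMod 2))) * A *
        (fromCols (1 : Matrix V V (ZMod 2)) (0 : Matrix V W (ZMod 2))) +
      (fromRows (0 : Matrix V W (ZMod 2)) (1 : Matrix W W (ZMod 2))) * K *
        (fromCols (0 : Matrix W V (ZMod 2)) (1 : Matrix W W (ZMod 2))) := by
    ext (i | i) (j | j) <;>
      simp [Matrix.mul_apply, Matrix.one_apply, fromRows_mul]
  have h2 : ∀ X Y : Matrix (V ⊕ W) (V ⊕ W) (ZMod 2), (X + Y).rank ≤ X.rank + Y.rank := by
    intro X Y
    unfold Matrix.rank
    rw [mulVecLin_add]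
    exact (Submodule.finrank_mono (LinearMap.range_add_le _ _)).trans
      (Submodule.finrank_add_le_finrank_add_finrank _ _)
  rw [h1]
  refine (h2 _ _).trans (Nat.add_le_add ?_ ?_)
  · exact (rank_mul_le_left _ _).trans (rank_mul_le_right _ _)
  · exact (rank_mul_le_left _ _).trans (rank_mul_le_right _ _)

theorem tmr_dijoin_le {D : V → V → Prop} {H : W → W → Prop} :
    tmr (dijoin D H) ≤ tmr D + tmr H := by
  classical
  obtain ⟨A, ⟨f, hfi, hf⟩, hA⟩ := exists_min D
  obtain ⟨K, ⟨h, hhi, hh⟩, hK⟩ := exists_min H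
  rw [← hA, ← hK]
  refine le_trans (tmr_le ?_) (rank_blocks A K)
  obtain ⟨L, hL⟩ : ∃ L, ∀ u, f u < L := by
    refine ⟨(Finset.univ.sup f) + 1, fun u => ?_⟩
    exact Nat.lt_succ_of_le (Finset.le_sup (Finset.mem_univ u))
  refine ⟨Sum.elim f (fun w => L + h w), ?_, ?_⟩
  · rintro (a | a) (b | b) hab
    · exact congrArg _ (hfi hab)
    · have h1 := hL a
      have hab' : f a = L + h b := hab
      omega
    · have h1 := hL b
      have hab' : L + h a = f b := hab
      omega
    · have hab' : L + h a = L + h b := hab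
      exact congrArg _ (hhi (by omega))
  · rintro (u | u) (v | v) huv
    · exact hf u v (fun h => huv (congrArg _ h))
    · have h1 := hL u
      have h2 : ¬ (L + h v < f u) := by omega
      show (0 : ZMod 2) = 1 ↔ ((True ∧ L + h v < f u) ∨ (False ∧ f u < L + h v))
      constructor
      · intro h
        exact absurd h (by decide)
      · rintro (⟨_, h⟩ | ⟨h, _⟩)
        · exact absurd h h2
        · exact h.elim
    · have h1 := hL v
      have h2 : ¬ (L + h u < f v) := by omega
      show (0 : ZMod 2) = 1 ↔ ((False ∧ f v < L + h u) ∨ (True ∧ L + h u < f v))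
      constructor
      · intro h
        exact absurd h (by decide)
      · rintro (⟨h, _⟩ | ⟨_, h⟩)
        · exact h.elim
        · exact absurd h h2
    · have h3 := hh u v (fun h => huv (congrArg _ h))
      show K u v = 1 ↔ ((H u v ∧ L + h v < L + h u) ∨ (H v u ∧ L + h u < L + h v))
      rw [h3]
      simp

/-- Reversing all arcs does not change the minimum rank. -/
theorem tmr_rev_le (D : V → V → Prop) : tmr (fun u v => D v u) ≤ tmr D := by
  obtain ⟨A, ⟨f, hfi, hf⟩, hA⟩ := exists_min D
  rw [← hA]
  apply tmr_le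
  obtain ⟨L, hL⟩ : ∃ L, ∀ u, f u < L := by
    refine ⟨(Finset.univ.sup f) + 1, fun u => ?_⟩
    exact Nat.lt_succ_of_le (Finset.le_sup (Finset.mem_univ u))
  refine ⟨fun u => L - f u, fun a b hab => ?_, fun u v huv => ?_⟩
  · have h1 := hL a
    have h2 := hL b
    have hab' : L - f a = L - f b := hab
    exact hfi (by omega)
  · rw [hf u v huv]
    have h1 := hL u
    have h2 := hL v
    have h3 : L - f v < L - f u ↔ f u < f v := by omega
    have h4 : L - f u < L - f v ↔ f v < f u := by omega
    show _ ↔ ((D v u ∧ L - f v < L - f u) ∨ (D u v ∧ L - f u < L - f v))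
    rw [h3, h4]
    tauto

theorem tmr_rev (D : V → V → Prop) : tmr (fun u v => D v u) = tmr D :=
  le_antisymm (tmr_rev_le D) (tmr_rev_le (fun u v => D v u))

/-- Isomorphic tournaments have the same minimum rank. -/
theorem tmr_equiv_le (D : V → V → Prop) (D' : W → W → Prop) (e : W ≃ V)
    (h : ∀ u v, D' u v ↔ D (e u) (e v)) : tmr D' ≤ tmr D := by
  obtain ⟨A, ⟨f, hfi, hf⟩, hA⟩ := exists_min D
  rw [← hA]
  refine le_trans (tmr_le (M := A.submatrix e e) ?_) (rank_submatrix_le A e e)
  refine ⟨fun u => f (e u), fun a b hab => e.injective (hfi hab), fun u v huv => ?_⟩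
  show A (e u) (e v) = 1 ↔ ((D' u v ∧ f (e v) < f (e u)) ∨ (D' v u ∧ f (e u) < f (e v)))
  rw [hf _ _ (fun h => huv (e.injective h)), h, h]

end

theorem tmr_C3 : tmr C3 ≤ 1 := by
  refine (tmr_le (M := vecMulVec ![1, 0, 1] ![1, 0, 1]) ?_).trans (rank_vecMulVec_le _ _)
  refine ⟨fun i => i.val, fun a b h => Fin.ext h, ?_⟩
  have h : ∀ u v : Fin 3, u ≠ v → ((![1, 0, 1] : Fin 3 → ZMod 2) u * ![1, 0, 1] v = 1 ↔
      ((v = u + 1 ∧ v.val < u.val) ∨ (u = v + 1 ∧ u.val < v.val))) := by decide
  exact h

theorem not_transitive_C3 : ¬ ∃ f : Fin 3 → ℕ, ∀ c c', c ≠ c' → C3 c c' → f c < f c' := by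
  rintro ⟨f, hf⟩
  have h1 := hf 0 1 (by decide) (by unfold C3; decide)
  have h2 := hf 1 2 (by decide) (by unfold C3; decide)
  have h3 := hf 2 0 (by decide) (by unfold C3; decide)
  omega

theorem not_transitive_C3' : ¬ ∃ f : Fin 3 → ℕ, ∀ c c', c ≠ c' → C3 c' c → f c < f c' := by
  rintro ⟨f, hf⟩
  have h1 := hf 1 0 (by decide) (by unfold C3; decide)
  have h2 := hf 2 1 (by decide) (by unfold C3; decide)
  have h3 := hf 0 2 (by decide) (by unfold C3; decide)
  omega

/-- For every tournament `D`, `tmr (D → C₃) = tmr D + 1 = tmr (C₃ → D)`. -/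
theorem result (V : Type) [Fintype V] (D : V → V → Prop) (hD : IsTournament D) :
    tmr (dijoin D C3) = tmr D + 1 ∧ tmr D + 1 = tmr (dijoin C3 D) := by
  have hc := tmr_C3
  constructor
  · apply le_antisymm
    · have := tmr_dijoin_le (D := D) (H := C3)
      omega
    · by_contra h
      exact not_transitive_C3 (key hD (by omega))
  · apply le_antisymm
    · by_contra h
      have hD' : IsTournament (fun u v => D v u) :=
        ⟨hD.1, fun u v huv => hD.2 v u huv.symm⟩
      have h1 := tmr_rev D
      have h2 := tmr_rev (dijoin C3 D)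
      have h3 := tmr_equiv_le (fun u v => dijoin C3 D v u)
        (dijoin (fun u v => D v u) (fun i j => C3 j i)) (Equiv.sumComm V (Fin 3)) (by
          rintro (u | u) (v | v)
          · rfl
          · rfl
          · rfl
          · rfl)
      exact not_transitive_C3' (key hD' (H := fun i j => C3 j i) (by omega))
    · have := tmr_dijoin_le (D := C3) (H := D)
      omega

end Pool.Agent.Results.MP_7ecff9_co.DijoinTriangle
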